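import Pool.Agent.Lib_helper18.PENK.Defs2

/-!
# PENT (MP_892e4c_nt), part (B): pairs of paths, `k = 10` (helper18)

A path `u_0 = (1,0), ..., u_10 = (0,1)` is a closed 11-gon with an open edge of determinant `-1`.
It is rotated so that the base edge is the edge `0`; `m` is the index of the open edge, i.e.
`u m = (0,1)`, `u (m+1) = (1,0)` (indices modulo 11). `m = 0`: the base is the form itself.
-/

set_option autoImplicit false

namespace Pool.Agent.PENK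

open Finset Pool.Agent.PENT

/-- the fixed vertices -/
def fx (m i : Fin 11) : Option (ℤ × ℤ) :=
  if i = m then some (0, 1) else if i = m + 1 then some (1, 0) else none

/-- the paths (rotated; open edge `m`), `κ` = level -/
structure IsPath (q : Par 11) (κ : ℝ) (m : Fin 11) (x : ℝ) (P0 : ℕ) (u : PolyK 11) : Prop where
  poly : IsPoly q x P0 u
  sep : Sep q u
  fix : ∀ j c, fx m j = some c → u j = c
  lo : ∀ j, fx m j = none → x ^ (4 * κ) ≤ (nr (u j) : ℝ)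
  g1 : fx m 1 = none → fx m 2 = none → x ^ (4 * κ) * nr (u 1) ≤ (nr (u 2) : ℝ) ∨
    x ^ (4 * κ) * nr (u 2) ≤ (nr (u 1) : ℝ)
  g4 : fx m (-1) = none → fx m 0 = none → x ^ (4 * κ) * nr (u (-1)) ≤ (nr (u 0) : ℝ) ∨
    x ^ (4 * κ) * nr (u 0) ≤ (nr (u (-1)) : ℝ)

/-- admissible dyadic sizes -/
structure PSiz (κ : ℝ) (m : Fin 11) (x : ℝ) (i : Fin 11 → ℕ) : Prop where
  fix : ∀ j c, fx m j = some c → i j = 0
  lo : ∀ j, fx m j = none → x ^ (4 * κ) ≤ (2 : ℝ) ^ (i j + 1)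
  hi : ∀ j, (2 : ℝ) ^ i j ≤ x
  g1 : fx m 1 = none → fx m 2 = none →
    x ^ (4 * κ) ≤ (2 : ℝ) ^ (max (i 1) (i 2) - min (i 1) (i 2) + 1)
  g4 : fx m (-1) = none → fx m 0 = none →
    x ^ (4 * κ) ≤ (2 : ℝ) ^ (max (i (-1)) (i 0) - min (i (-1)) (i 0) + 1)

/-! ### the families -/

/-- the indices of the family of pairs `(a, b)`, `det(a, b) = δ`; `fa, fb`: fixed values -/
noncomputable def OS (fa fb : Option (ℤ × ℤ)) (ia ib : ℕ) : Finset ((ℤ × ℤ) × ℤ) :=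
  match fa, fb with
  | none, none => OP (2 ^ (min ia ib + 1)) (4 * 2 ^ (max ia ib - min ia ib))
  | some _, none => {(0, 0)} ×ˢ Icc (-((2 ^ (ib + 1) : ℕ) : ℤ)) ((2 ^ (ib + 1) : ℕ) : ℤ)
  | none, some _ => {(0, 0)} ×ˢ Icc (-((2 ^ (ia + 1) : ℕ) : ℤ)) ((2 ^ (ia + 1) : ℕ) : ℤ)
  | some _, some _ => {((0, 0), 0)}

/-- the pair with the index `o`: if nothing is fixed as in `pol5`; `a = (1,0)`, `b = (t, δ)`;
`b = (0,1)`, `a = (δ, t)`; `a = (0,1)`, `b = (1,0)` -/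
noncomputable def pS (fa fb : Option (ℤ × ℤ)) (ia ib : ℕ) (δ : ℤ) (o : (ℤ × ℤ) × ℤ) :
    (ℤ × ℤ) × (ℤ × ℤ) :=
  match fa, fb with
  | none, none => if ia < ib then pP δ o else ((pP (-δ) o).2, (pP (-δ) o).1)
  | some c, none => (c, (o.2, δ))
  | none, some c => ((δ, o.2), c)
  | some c, some c' => (c, c')

/-- the law modulo `p` -/
noncomputable def LS (fa fb : Option (ℤ × ℤ)) (δ : ℤ) (p : ℕ) : Finset ((ℤ × ℤ) × (ℤ × ℤ)) :=
  (L2 δ p).filter (fun v => (∀ c, fa = some c → v.1 = c) ∧ (∀ c, fb = some c → v.2 = c))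

/-- single vertices -/
noncomputable def O1 (f : Option (ℤ × ℤ)) (i : ℕ) : Finset (ℤ × ℤ) :=
  match f with
  | none => sq (2 ^ (i + 1))
  | some c => {c}

noncomputable def LL1 (f : Option (ℤ × ℤ)) (p : ℕ) : Finset (ℤ × ℤ) :=
  (L1 p).filter (fun v => ∀ c, f = some c → v = c)

/-- the indices of the families of paths -/
abbrev I11 := (((ℤ × ℤ) × ℤ) × ((ℤ × ℤ) × ℤ)) × (Fin 7 → ℤ × ℤ)

/-- the assembly: `w = (u 1, u 2)`, `z = (u 10, u 0)`, `s i = u (i + 3)` -/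
def asm11 (v : (((ℤ × ℤ) × (ℤ × ℤ)) × ((ℤ × ℤ) × (ℤ × ℤ))) × (Fin 7 → ℤ × ℤ)) : PolyK 11 :=
  ![v.1.2.2, v.1.1.1, v.1.1.2, v.2 0, v.2 1, v.2 2, v.2 3, v.2 4, v.2 5, v.2 6, v.1.2.1]

/-- the vertex of the single `i` -/
def sv (i : Fin 7) : Fin 11 := ⟨i.val + 3, by omega⟩

noncomputable def O11 (m : Fin 11) (i : Fin 11 → ℕ) : Finset I11 :=
  ((OS (fx m 1) (fx m 2) (i 1) (i 2)) ×ˢ (OS (fx m 10) (fx m 0) (i 10) (i 0))) ×ˢ
    Fintype.piFinset (fun j => O1 (fx m (sv j)) (i (sv j)))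

noncomputable def pol11 (m : Fin 11) (i : Fin 11 → ℕ) (δ1 δ2 : ℤ) (o : I11) : PolyK 11 :=
  asm11 ((pS (fx m 1) (fx m 2) (i 1) (i 2) δ1 o.1.1, pS (fx m 10) (fx m 0) (i 10) (i 0) δ2 o.1.2),
    o.2)

/-- the law modulo `p`: the fixed vertices, `dl_1 = δ1`, `dl_10 = δ2` -/
noncomputable def Law11 (m : Fin 11) (δ1 δ2 : ℤ) (p : ℕ) : Finset (PolyK 11) :=
  (Fintype.piFinset (fun _ : Fin 11 => L1 p)).filter
    (fun u => (∀ j c, fx m j = some c → u j = c) ∧ (p : ℤ) ∣ dl u 1 - δ1 ∧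
      (p : ℤ) ∣ dl u 10 - δ2)

/-- `δ` is admissible for the slot: if both vertices are fixed it is `det((0,1),(1,0)) = -1` -/
def dOk (m : Fin 11) (δ1 δ2 : ℤ) : Prop := (m = 1 → δ1 = -1) ∧ (m = 10 → δ2 = -1)

/-- the pairs of paths -/
structure PairP (q : Par 11) (κ : ℝ) (m : Fin 11) (x : ℝ) (P0 : ℕ) (s : PolyK 11 × PolyK 11) :
    Prop where
  p1 : IsPath q κ m x P0 s.1
  p2 : IsPath q κ m x P0 s.2
  o1 : One4 s.1
  o2 : One4 s.2
  cp : Compat q s.1 s.2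

/-- the density of the second sieve: general form -/
noncomputable def FFg (B3 BP B1 C1 : ℝ) (P0 p : ℕ) : ℝ :=
  1 - (if p % 4 = 3 then B3 else if p ≤ P0 then BP else B1) / p + C1 / (p : ℝ) ^ 2

/-- the exponents for the weights `W` -/
noncomputable def eB3 (m : Fin 11) : ℝ := 2 * ((inr 11 \ {m}).card : ℝ)

noncomputable def eBP (m : Fin 11) (W : Wts 11) : ℝ :=
  2 * ((inr 11 \ {m}).card : ℝ) + 4 * ∑ k ∈ ivr 11, (1 - W.bo k) + 2 * (1 - W.bo 0) +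
    2 * (1 - W.bo 1)

noncomputable def eB1 (m : Fin 11) (W : Wts 11) : ℝ :=
  2 * ∑ j ∈ inr 11 \ {m}, (1 - 2 * W.al j) + 4 * ∑ k ∈ ivr 11, (1 - W.be k) +
    2 * (1 - W.be 0 ^ 2 / W.s0) + 2 * (1 - W.be 1 ^ 2 / W.s1)

/-- the exponent of the special edge `1` -/
noncomputable def eS1 (W : Wts 11) : ℝ := 4 * (W.al 1 * W.be 1 / W.s1) + 2 * (W.al 1 ^ 2 / W.s1)

/-- the exponent of the special edge `-1` -/
noncomputable def eS0 (W : Wts 11) : ℝ :=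
  4 * (W.al (-1) * W.be 0 / W.s0) + 2 * (W.al (-1) ^ 2 / W.s0)

/-- the number of free cells -/
def ncell (m : Fin 11) : ℕ := if m = 1 ∨ m = 10 then 15 else if m = 0 then 14 else 13

/-- the balance of the weights -/
structure Bal (m : Fin 11) (W : Wts 11) : Prop where
  ok : W.Ok
  am : W.al m = 0
  bal : eB1 m W - eS1 W - eS0 W = eBP m W

end Pool.Agent.PENK
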